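import Pool.Agent.Work.MP_540755_al.Proof

namespace Pool.Agent.Results.MP_540755_al.NotInjective

open FreeAlgebra Pool.Agent.Work.MP_540755_al

/-- Counterexample with `k = 4`, `n = 2`, `d = (3,2)`: in `A_4 = ℂ⟨x_0,x_1,x_2,x_3⟩`, for the
derivation `δ(x_i) = [x_2,x_3] x_i`, there is an element `a ∈ L_4` of multidegree `(3,2,0,0)`
whose class in `B_4 = L_4/L_5` is nonzero and is sent to zero by the map induced by `δ`. -/
theorem result :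
    ∃ δ : FreeAlgebra ℂ (Fin 4) →ₗ[ℂ] FreeAlgebra ℂ (Fin 4),
      (∀ a b, δ (a * b) = δ a * b + a * δ b) ∧
      (∀ i : Fin 4, δ (ι ℂ i) = (ι ℂ 2 * ι ℂ 3 - ι ℂ 3 * ι ℂ 2) * ι ℂ i) ∧
      ∃ a ∈ multiDeg 4 ![3, 2, 0, 0], a ∈ lcs 4 4 ∧ a ∉ lcs 4 5 ∧ δ a ∈ lcs 4 5 :=
  ⟨der, der_mul, der_gen, ev aP, aP_deg, aP_mem, aP_not_mem, der_aP_mem⟩

end Pool.Agent.Results.MP_540755_al.NotInjective
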